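import Mathlib

/-!
# MP_e57dcf_an: frames of `2n-2` vectors doing weak phase retrieval are not dense

For every `n ≥ 2` the set of frames with `2n-2` vectors in `ℝⁿ` which do weak phase retrieval is not
dense in the set of all frames with `2n-2` vectors.

Idea: let `u` be orthogonal to the first `n-1` vectors and `v` orthogonal to the last `n-1` vectors
(given by cofactors, so depending continuously on the frame). For all positive `s, t` the vectors
`s u + t v` and `s u - t v` have the same absolute measurements, and the product of their `k`-th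
coordinates is `s² u_k² - t² v_k²`. If `|u_0| |v_1| > |u_1| |v_0|` then suitable `s, t` make
this product positive for `k = 0` and negative for `k = 1`. Hence weak phase retrieval forces
`u_0² v_1² ≤ u_1² v_0²`, a closed condition violated by an explicit frame.
-/

namespace Pool.Agent.Results.MP_e57dcf_an.NotDense

open Matrix

/-- Two vectors weakly have the same phase: for one sign `θ`, `sgn x(k) = θ sgn y(k)` for every
coordinate `k` with `x(k) y(k) ≠ 0`. -/
def WeakSamePhase {n : ℕ} (x y : EuclideanSpace ℝ (Fin n)) : Prop :=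
  ∃ θ : ℝ, (θ = 1 ∨ θ = -1) ∧ ∀ k, x k * y k ≠ 0 → Real.sign (x k) = θ * Real.sign (y k)

/-- The family `X` does weak phase retrieval. -/
def DoesWeakPhaseRetrieval {n m : ℕ} (X : Fin m → EuclideanSpace ℝ (Fin n)) : Prop :=
  ∀ x y : EuclideanSpace ℝ (Fin n), (∀ i, |inner ℝ x (X i)| = |inner ℝ y (X i)|) →
    WeakSamePhase x y

/-- `X` is a frame for `ℝⁿ`. -/
def IsFrame {n m : ℕ} (X : Fin m → EuclideanSpace ℝ (Fin n)) : Prop :=
  ∃ A B : ℝ, 0 < A ∧ A ≤ B ∧ ∀ x : EuclideanSpace ℝ (Fin n),
    A * ‖x‖ ^ 2 ≤ ∑ i, |inner ℝ x (X i)| ^ 2 ∧ ∑ i, |inner ℝ x (X i)| ^ 2 ≤ B * ‖x‖ ^ 2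

/-- The space `𝓕_{n,m}` of frames for `ℝⁿ` with `m` vectors, with the topology induced from
`(ℝⁿ)^m`. -/
def Frames (n m : ℕ) : Type := {X : Fin m → EuclideanSpace ℝ (Fin n) // IsFrame X}

instance (n m : ℕ) : TopologicalSpace (Frames n m) :=
  inferInstanceAs (TopologicalSpace {X : Fin m → EuclideanSpace ℝ (Fin n) // IsFrame X})

/-- The set `𝓦_n` of frames with `2n-2` vectors for `ℝⁿ` which do weak phase retrieval. -/
def W (n : ℕ) : Set (Frames n (2 * n - 2)) := {X | DoesWeakPhaseRetrieval X.1}

section aux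

variable {n : ℕ}

/-- matrix with zeroth row `0` and rows `1..n-1` the vectors with indices `a .. a+n-2` -/
noncomputable def M (a : ℕ) (ha : a + (n - 1) ≤ 2 * n - 2)
    (X : Fin (2 * n - 2) → EuclideanSpace ℝ (Fin n)) : Matrix (Fin n) (Fin n) ℝ :=
  fun j k => if h : 1 ≤ j.val then X ⟨a + (j.val - 1), by omega⟩ k else 0

/-- the cofactor vector, orthogonal to the vectors with indices `a .. a+n-2` -/
noncomputable def cof (hn : 2 ≤ n) (a : ℕ) (ha : a + (n - 1) ≤ 2 * n - 2)
    (X : Fin (2 * n - 2) → EuclideanSpace ℝ (Fin n)) (k : Fin n) : ℝ :=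
  adjugate (M a ha X) k ⟨0, by omega⟩

lemma cof_orth (hn : 2 ≤ n) (a : ℕ) (ha : a + (n - 1) ≤ 2 * n - 2)
    (X : Fin (2 * n - 2) → EuclideanSpace ℝ (Fin n)) (i : Fin (2 * n - 2))
    (hi : a ≤ i.val) (hi' : i.val < a + (n - 1)) :
    ∑ k, cof hn a ha X k * X i k = 0 := by
  have h := Matrix.mul_adjugate (M a ha X)
  have h2 := congrFun (congrFun h ⟨i.val - a + 1, by omega⟩) ⟨0, by omega⟩
  rw [Matrix.mul_apply] at h2
  simp only [Matrix.smul_apply, Matrix.one_apply, Fin.mk.injEq, smul_eq_mul] at h2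
  rw [if_neg (by omega), mul_zero] at h2
  rw [← h2]
  refine Finset.sum_congr rfl fun k _ => ?_
  have : M a ha X ⟨i.val - a + 1, by omega⟩ k = X i k := by
    simp only [M]
    rw [dif_pos (by simp)]
    have e : (⟨a + (i.val - a + 1 - 1), by omega⟩ : Fin (2 * n - 2)) = i :=
      Fin.ext (by simp only []; omega)
    rw [e]
  rw [this, cof, mul_comm]

lemma continuous_M (a : ℕ) (ha : a + (n - 1) ≤ 2 * n - 2) :
    Continuous (M (n := n) a ha) := by
  refine continuous_matrix fun j k => ?_
  unfold M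
  by_cases h : 1 ≤ j.val
  · simp only [h, dite_true]
    fun_prop
  · simp only [h, dite_false]
    fun_prop

lemma continuous_cof (hn : 2 ≤ n) (a : ℕ) (ha : a + (n - 1) ≤ 2 * n - 2) (k : Fin n) :
    Continuous (fun X => cof hn a ha X k) := by
  have h1 : Continuous fun X => adjugate (M (n := n) a ha X) :=
    (continuous_M a ha).matrix_adjugate
  exact (continuous_id.matrix_elem k _).comp h1

/-- the key closed condition -/
lemma key (hn : 2 ≤ n) (X : Fin (2 * n - 2) → EuclideanSpace ℝ (Fin n))
    (hX : DoesWeakPhaseRetrieval X) (k l : Fin n) :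
    |cof hn 0 (by omega) X k| * |cof hn (n - 1) (by omega) X l| ≤
      |cof hn 0 (by omega) X l| * |cof hn (n - 1) (by omega) X k| := by
  by_contra hcon
  push Not at hcon
  set u := cof hn 0 (by omega) X with hu
  set v := cof hn (n - 1) (by omega) X with hv
  have huk : 0 < |u k| := by
    rcases (abs_nonneg (u k)).eq_or_lt with h | h
    · rw [← h, zero_mul] at hcon
      exact absurd hcon (not_lt.mpr (by positivity))
    · exact h
  have hvl : 0 < |v l| := by
    rcases (abs_nonneg (v l)).eq_or_lt with h | h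
    · rw [← h, mul_zero] at hcon
      exact absurd hcon (not_lt.mpr (by positivity))
    · exact h
  set s : ℝ := |v k| + |v l| with hs
  set t : ℝ := |u k| + |u l| with ht
  have hspos : 0 < s := by positivity
  have htpos : 0 < t := by positivity
  have h1 : t * |v k| < s * |u k| := by
    rw [hs, ht]; nlinarith
  have h2 : s * |u l| < t * |v l| := by
    rw [hs, ht]; nlinarith
  let x : EuclideanSpace ℝ (Fin n) := WithLp.toLp 2 (fun k => s * u k + t * v k)
  let y : EuclideanSpace ℝ (Fin n) := WithLp.toLp 2 (fun k => s * u k - t * v k)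
  have hxy : ∀ i, |inner ℝ x (X i)| = |inner ℝ y (X i)| := by
    intro i
    have ex : inner ℝ x (X i) = s * ∑ k, u k * X i k + t * ∑ k, v k * X i k := by
      rw [PiLp.inner_apply, Finset.mul_sum, Finset.mul_sum, ← Finset.sum_add_distrib]
      refine Finset.sum_congr rfl fun k _ => ?_
      simp [x]
      ring
    have ey : inner ℝ y (X i) = s * ∑ k, u k * X i k - t * ∑ k, v k * X i k := by
      rw [PiLp.inner_apply, Finset.mul_sum, Finset.mul_sum, ← Finset.sum_sub_distrib]
      refine Finset.sum_congr rfl fun k _ => ?_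
      simp [y]
      ring
    rw [ex, ey]
    by_cases hi : i.val < n - 1
    · rw [cof_orth hn 0 (by omega) X i (by omega) (by omega)]
      rw [mul_zero, zero_add, zero_sub, abs_neg]
    · rw [cof_orth hn (n - 1) (by omega) X i (by omega) (by omega)]
      rw [mul_zero, add_zero, sub_zero]
  obtain ⟨θ, hθ, hsgn⟩ := hX x y hxy
  have hk : x k * y k = (s * u k) ^ 2 - (t * v k) ^ 2 := by
    simp only [x, y]; ring
  have hl : x l * y l = (s * u l) ^ 2 - (t * v l) ^ 2 := by
    simp only [x, y]; ring
  have hk' : 0 < x k * y k := by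
    rw [hk, sub_pos, sq_lt_sq, abs_mul, abs_mul, abs_of_pos hspos, abs_of_pos htpos]
    exact h1
  have hl' : x l * y l < 0 := by
    rw [hl, sub_neg, sq_lt_sq, abs_mul, abs_mul, abs_of_pos hspos, abs_of_pos htpos]
    exact h2
  have e1 := hsgn k hk'.ne'
  have e2 := hsgn l hl'.ne
  have hθ1 : θ = 1 := by
    rcases hθ with h | h
    · exact h
    · exfalso
      rw [h] at e1
      rcases pos_and_pos_or_neg_and_neg_of_mul_pos hk' with ⟨a, b⟩ | ⟨a, b⟩
      · rw [Real.sign_of_pos a, Real.sign_of_pos b] at e1; norm_num at e1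
      · rw [Real.sign_of_neg a, Real.sign_of_neg b] at e1; norm_num at e1
  rw [hθ1, one_mul] at e2
  rcases mul_neg_iff.mp hl' with ⟨a, b⟩ | ⟨a, b⟩
  · rw [Real.sign_of_pos a, Real.sign_of_neg b] at e2; norm_num at e2
  · rw [Real.sign_of_neg a, Real.sign_of_pos b] at e2; norm_num at e2

/-- index map of the explicit frame -/
def c (n : ℕ) (hn : 2 ≤ n) (i : Fin (2 * n - 2)) : Fin n :=
  if h : i.val < n - 1 then ⟨i.val + 1, by omega⟩
  else if h' : i.val = n - 1 then ⟨0, by omega⟩ else ⟨i.val - (n - 1) + 1, by omega⟩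

/-- the explicit frame -/
noncomputable def X0 (n : ℕ) (hn : 2 ≤ n) (i : Fin (2 * n - 2)) : EuclideanSpace ℝ (Fin n) :=
  EuclideanSpace.single (c n hn i) (1 : ℝ)

lemma inner_X0 (hn : 2 ≤ n) (x : EuclideanSpace ℝ (Fin n)) (i : Fin (2 * n - 2)) :
    inner ℝ x (X0 n hn i) = x (c n hn i) := by
  simp [X0, EuclideanSpace.inner_single_right]

lemma isFrame_X0 (hn : 2 ≤ n) : IsFrame (X0 n hn) := by
  refine ⟨1, (2 * n - 2 : ℕ), one_pos, ?_, fun x => ⟨?_, ?_⟩⟩
  · have : 1 ≤ 2 * n - 2 := by omega
    exact_mod_cast this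
  · rw [one_mul, EuclideanSpace.norm_sq_eq]
    simp only [inner_X0]
    let inj : Fin n → Fin (2 * n - 2) := fun k =>
      if h : k.val = 0 then ⟨n - 1, by omega⟩ else ⟨k.val - 1, by omega⟩
    have hc : ∀ k, c n hn (inj k) = k := by
      intro k
      by_cases h : k.val = 0
      · apply Fin.ext
        simp [inj, h, c]
      · apply Fin.ext
        have : k.val - 1 < n - 1 := by omega
        simp [inj, h, c, this]
        omega
    have hinj : Function.Injective inj := Function.LeftInverse.injective hc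
    calc ∑ k, ‖x k‖ ^ 2 = ∑ k, |x (c n hn (inj k))| ^ 2 := by
          refine Finset.sum_congr rfl fun k _ => ?_
          rw [hc, Real.norm_eq_abs]
      _ = ∑ i ∈ Finset.univ.map ⟨inj, hinj⟩, |x (c n hn i)| ^ 2 := by
          rw [Finset.sum_map]; rfl
      _ ≤ ∑ i, |x (c n hn i)| ^ 2 :=
          Finset.sum_le_univ_sum_of_nonneg (fun i => by positivity)
  · simp only [inner_X0]
    calc ∑ i, |x (c n hn i)| ^ 2 ≤ ∑ _i : Fin (2 * n - 2), ‖x‖ ^ 2 := by
          refine Finset.sum_le_sum fun i _ => ?_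
          have := EuclideanSpace.norm_sq_eq x
          rw [this, ← Real.norm_eq_abs]
          exact Finset.single_le_sum (f := fun k => ‖x k‖ ^ 2) (fun k _ => by positivity)
            (Finset.mem_univ _)
      _ = _ := by simp

lemma c_lt (hn : 2 ≤ n) (i : Fin (2 * n - 2)) (h : i.val < n - 1) :
    c n hn i = ⟨i.val + 1, by omega⟩ := by
  unfold c; rw [dif_pos h]

lemma c_eq (hn : 2 ≤ n) (i : Fin (2 * n - 2)) (h : i.val = n - 1) :
    c n hn i = ⟨0, by omega⟩ := by
  unfold c; rw [dif_neg (by omega), dif_pos h]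

lemma c_gt (hn : 2 ≤ n) (i : Fin (2 * n - 2)) (h : n - 1 < i.val) :
    c n hn i = ⟨i.val - (n - 1) + 1, by omega⟩ := by
  unfold c; rw [dif_neg (by omega), dif_neg (by omega)]

lemma X0_apply (hn : 2 ≤ n) (i : Fin (2 * n - 2)) (k : Fin n) :
    X0 n hn i k = if k = c n hn i then 1 else 0 := by
  rw [X0, PiLp.single_apply]

lemma cof_u0 (hn : 2 ≤ n) :
    cof hn 0 (by omega) (X0 n hn) ⟨0, by omega⟩ = 1 := by
  rw [cof, Matrix.adjugate_apply]
  have : (M 0 (by omega) (X0 n hn)).updateRow ⟨0, by omega⟩ (Pi.single ⟨0, by omega⟩ 1) =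
      (1 : Matrix (Fin n) (Fin n) ℝ) := by
    ext j k
    by_cases hj : j = ⟨0, by omega⟩
    · subst hj
      rw [Matrix.updateRow_self, Matrix.one_apply, Pi.single_apply]
      simp [eq_comm]
    · rw [Matrix.updateRow_ne hj]
      have hj' : 1 ≤ j.val := by
        rcases Nat.eq_zero_or_pos j.val with h | h
        · exact absurd (Fin.ext h) hj
        · exact h
      simp only [M, hj', dite_true]
      rw [X0_apply, c_lt hn _ (by simp only []; omega), Matrix.one_apply]
      have : (⟨0 + (j.val - 1) + 1, by omega⟩ : Fin n) = j := by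
        apply Fin.ext; simp only []; omega
      rw [this]
      simp only [eq_comm]
  rw [this, Matrix.det_one]

/-- the last `n-1` vectors of the explicit frame are all orthogonal to ... ; the zeroth coordinate
of the cofactor vector `v` vanishes because the zeroth and the first row coincide -/
lemma cof_v0 (hn : 2 ≤ n) :
    cof hn (n - 1) (by omega) (X0 n hn) ⟨0, by omega⟩ = 0 := by
  rw [cof, Matrix.adjugate_apply]
  refine Matrix.det_zero_of_row_eq (i := ⟨0, by omega⟩) (j := ⟨1, by omega⟩) ?_ ?_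
  · simp [Fin.ext_iff]
  · funext k
    rw [Matrix.updateRow_self, Matrix.updateRow_ne (by simp [Fin.ext_iff])]
    simp only [M, le_refl, dite_true]
    rw [X0_apply, c_eq hn _ (by simp), Pi.single_apply]

lemma cof_v1 (hn : 2 ≤ n) :
    cof hn (n - 1) (by omega) (X0 n hn) ⟨1, by omega⟩ ≠ 0 := by
  rw [cof, Matrix.adjugate_apply]
  have : (M (n - 1) (by omega) (X0 n hn)).updateRow ⟨0, by omega⟩ (Pi.single ⟨1, by omega⟩ 1) =
      (1 : Matrix (Fin n) (Fin n) ℝ).submatrix
        (Equiv.swap (⟨0, by omega⟩ : Fin n) ⟨1, by omega⟩) id := by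
    ext j k
    rw [Matrix.submatrix_apply, Matrix.one_apply, id]
    by_cases hj : j = ⟨0, by omega⟩
    · subst hj
      rw [Matrix.updateRow_self, Pi.single_apply, Equiv.swap_apply_left]
      simp [eq_comm]
    · rw [Matrix.updateRow_ne hj]
      have hj' : 1 ≤ j.val := by
        rcases Nat.eq_zero_or_pos j.val with h | h
        · exact absurd (Fin.ext h) hj
        · exact h
      simp only [M, hj', dite_true]
      rw [X0_apply]
      by_cases hj1 : j = ⟨1, by omega⟩
      · have hj1v : j.val = 1 := by rw [hj1]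
        have hsw : Equiv.swap (⟨0, by omega⟩ : Fin n) ⟨1, by omega⟩ j = ⟨0, by omega⟩ := by
          rw [show j = ⟨1, by omega⟩ from hj1, Equiv.swap_apply_right]
        rw [c_eq hn _ (by simp only []; omega), hsw]
        simp only [eq_comm]
      · rw [Equiv.swap_apply_of_ne_of_ne hj hj1]
        have hj2 : 2 ≤ j.val := by
          rcases Nat.lt_or_ge j.val 2 with h | h
          · exact absurd (Fin.ext (show j.val = 1 by omega)) hj1
          · exact h
        rw [c_gt hn _ (by simp only []; omega)]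
        have : (⟨n - 1 + (j.val - 1) - (n - 1) + 1, by omega⟩ : Fin n) = j := by
          apply Fin.ext; simp only []; omega
        rw [this]
        simp only [eq_comm]
  rw [this, Matrix.det_permute]
  simp

end aux

/-- For every `n ≥ 2` the set of frames with `2n-2` vectors doing weak phase retrieval is not dense
in the set of all frames with `2n-2` vectors. -/
theorem result (n : ℕ) (hn : 2 ≤ n) : ¬ Dense (W n) := by
  intro hd
  let U : Set (Frames n (2 * n - 2)) := {X |
    |cof hn 0 (by omega) X.1 ⟨1, by omega⟩| * |cof hn (n - 1) (by omega) X.1 ⟨0, by omega⟩| <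
      |cof hn 0 (by omega) X.1 ⟨0, by omega⟩| * |cof hn (n - 1) (by omega) X.1 ⟨1, by omega⟩|}
  have hval : Continuous (fun X : Frames n (2 * n - 2) => X.1) := continuous_subtype_val
  have hU : IsOpen U := by
    refine isOpen_lt ?_ ?_
    · exact (((continuous_cof hn 0 (by omega) _).comp hval).abs).mul
        (((continuous_cof hn (n - 1) (by omega) _).comp hval).abs)
    · exact (((continuous_cof hn 0 (by omega) _).comp hval).abs).mul
        (((continuous_cof hn (n - 1) (by omega) _).comp hval).abs)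
  have hmem : (⟨X0 n hn, isFrame_X0 hn⟩ : Frames n (2 * n - 2)) ∈ U := by
    change |cof hn 0 (by omega) (X0 n hn) ⟨1, by omega⟩| *
        |cof hn (n - 1) (by omega) (X0 n hn) ⟨0, by omega⟩| <
      |cof hn 0 (by omega) (X0 n hn) ⟨0, by omega⟩| *
        |cof hn (n - 1) (by omega) (X0 n hn) ⟨1, by omega⟩|
    rw [cof_u0 hn, cof_v0 hn, abs_zero, mul_zero, abs_one, one_mul]
    exact abs_pos.mpr (cof_v1 hn)
  obtain ⟨X, hXU, hXW⟩ := hd.inter_open_nonempty U hU ⟨_, hmem⟩
  exact absurd (key hn X.1 hXW ⟨0, by omega⟩ ⟨1, by omega⟩) (not_le.mpr hXU)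

end Pool.Agent.Results.MP_e57dcf_an.NotDense
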